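import Pool.Agent.H95.RQ.Targets1

/-!
# Module PCM: products of permutation characters
-/

set_option autoImplicit false

namespace Pool.Agent.H35.RQ

open Pool.Agent.H95.RQ Pool.Agent.H28.RC MulAction

/-- fixed points and orbits -/
theorem card_fix {G X : Type} [Group G] [MulAction G X] [Finite X]
    [Fintype (Quotient (orbitRel G X))] (g : G) :
    Nat.card {x : X // g • x = x} =
      ∑ ω : Quotient (orbitRel G X), Nat.card {y : G ⧸ stabilizer G ω.out // g • y = y} := by
  classical
  have e1 : Nat.card {x : X // g • x = x} = ∑ ω : Quotient (orbitRel G X),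
      Nat.card {x : {x : X // g • x = x} // (Quotient.mk (orbitRel G X) x.1) = ω} := by
    rw [← Nat.card_sigma]
    exact (Nat.card_congr (Equiv.sigmaFiberEquiv
      (fun x : {x : X // g • x = x} => Quotient.mk (orbitRel G X) x.1))).symm
  rw [e1]
  refine Finset.sum_congr rfl fun ω _ => ?_
  refine (Nat.card_congr (Equiv.ofBijective (fun y : {y : G ⧸ stabilizer G ω.out // g • y = y} =>
    (⟨⟨ofQuotientStabilizer G ω.out y.1, ?_⟩, ?_⟩ :
      {x : {x : X // g • x = x} // (Quotient.mk (orbitRel G X) x.1) = ω})) ⟨?_, ?_⟩)).symm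
  · rw [← ofQuotientStabilizer_smul, y.2]
  · show Quotient.mk (orbitRel G X) (ofQuotientStabilizer G ω.out y.1) = ω
    conv_rhs => rw [← Quotient.out_eq ω]
    refine Quotient.sound ?_
    exact ofQuotientStabilizer_mem_orbit G ω.out y.1
  · intro y z h
    have h1 : ofQuotientStabilizer G ω.out y.1 = ofQuotientStabilizer G ω.out z.1 :=
      congrArg (fun t : {x : {x : X // g • x = x} // (Quotient.mk (orbitRel G X) x.1) = ω} =>
        t.1.1) h
    exact Subtype.ext (injective_ofQuotientStabilizer G ω.out h1)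
  · rintro ⟨⟨x, hx⟩, hxω⟩
    have h1 : Quotient.mk (orbitRel G X) x = Quotient.mk (orbitRel G X) ω.out := by
      rw [Quotient.out_eq]
      exact hxω
    obtain ⟨a, ha⟩ : x ∈ orbit G ω.out := Quotient.exact h1
    have ha' : ofQuotientStabilizer G ω.out (QuotientGroup.mk a) = x := ha
    refine ⟨⟨QuotientGroup.mk a, ?_⟩, ?_⟩
    · apply injective_ofQuotientStabilizer G ω.out
      rw [ofQuotientStabilizer_smul, ha', hx]
    · exact Subtype.ext (Subtype.ext ha')

theorem pf_PCM : T_PCM := by
  classical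
  intro G _ _ H K
  set X := (G ⧸ H) × (G ⧸ K) with hX
  have : Fintype (Quotient (orbitRel G X)) := Fintype.ofFinite _
  set e := (Fintype.equivFin (Quotient (orbitRel G X))).symm with he
  refine ⟨_, fun i => stabilizer G (e i).out, fun i => (e i).out.1.out, fun i g hg => ?_,
    fun g => ?_⟩
  · have h1 : g • (e i).out = (e i).out := hg
    have h2 : g • (e i).out.1 = (e i).out.1 := congrArg Prod.fst h1
    have h3 : (QuotientGroup.mk ((e i).out.1.out) : G ⧸ H) = (e i).out.1 := Quotient.out_eq _
    have h4 : (QuotientGroup.mk ((e i).out.1.out) : G ⧸ H) =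
        QuotientGroup.mk (g * (e i).out.1.out) := by
      have h5 : (QuotientGroup.mk (g * (e i).out.1.out) : G ⧸ H) =
          g • (QuotientGroup.mk ((e i).out.1.out) : G ⧸ H) := rfl
      rw [h5, h3]
      exact h2.symm
    rw [mul_assoc]
    exact QuotientGroup.eq.1 h4
  · have h1 : Nat.card {x : X // g • x = x} =
        Nat.card {x : G ⧸ H // g • x = x} * Nat.card {x : G ⧸ K // g • x = x} := by
      rw [← Nat.card_prod]
      refine Nat.card_congr ⟨fun x => (⟨x.1.1, congrArg Prod.fst x.2⟩,
        ⟨x.1.2, congrArg Prod.snd x.2⟩), fun y => ⟨(y.1.1, y.2.1), Prod.ext y.1.2 y.2.2⟩,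
        fun x => rfl, fun y => rfl⟩
    have h2 := card_fix (X := X) g
    unfold pcz
    rw [← Nat.cast_mul, ← h1, h2, ← e.sum_comp]
    push_cast
    rfl

end Pool.Agent.H35.RQ
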